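import Mathlib
import Pool.Agent.V11242.EN.Rest
import Pool.Agent.V11242.EN.Ground

/-!
# Consistently `cov(B) < 𝔠`, and for every `n > 1` there is a set of reals which is
`(𝔠, n)`-entangled but not `(𝔠, n + 1)`-entangled

Adding `κ = 2 ^ ℵ₁` many random reals forces that `𝔠 = κ` and `cov(B) = ℵ₁ < 𝔠`. The set of reals
is given by `κ` many blocks which consist of `n` random reals and of the real obtained by
interleaving their bits.
-/

set_option autoImplicit false

namespace Pool.Agent.Results.MP_360872_lc.StarCovSmall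

open Cardinal Pool.Agent.V11242.EN

/-- (A) There are sets `K` and `L` and a ccc notion of forcing `P` all of whose conditions force
the sentence `PhiFor K L`. (B) Whenever `PhiFor K L` holds, then `cov(B) < 𝔠` and `(∗)` holds. -/
theorem result :
    (∃ (K L P : Type) (_ : Preorder P), Nonempty P ∧
      (∀ A : Set P, (∀ p ∈ A, ∀ q ∈ A, p ≠ q → ¬ ∃ r, r ≤ p ∧ r ≤ q) → A.Countable) ∧
      ∀ p : P, p ∈ PhiHolds P K L) ∧
    (∀ K L : Type, PhiFor K L → covB < 𝔠 ∧ Star) :=
  ⟨exists_forcing, fun _ _ h => ⟨covB_lt h, star h⟩⟩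

end Pool.Agent.Results.MP_360872_lc.StarCovSmall
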